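import Pool.Agent.Q24.CG.Main

/-!
# Congruence topologies on groups of automorphisms: definitions and tools
-/

set_option autoImplicit false

namespace Pool.Agent.Q23.CS

open Pool.Agent.Q24.CG (KK mem_KK KK_char KK_fin fi_comap cp sh cp_zero cp_ne sh_apply sh_inv
  detect detect')

/-- Every subgroup of finite index of the group `B` of automorphisms of `F` contains all elements of
`B` that act trivially on `F / K`, for some characteristic subgroup `K` of finite index of `F`. -/
def FullAut {F : Type} [Group F] (B : Subgroup (MulAut F)) : Prop :=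
  ∀ M : Subgroup B, M.FiniteIndex → ∃ K : Subgroup F, K.Characteristic ∧ K.FiniteIndex ∧
    ∀ α : B, (∀ w : F, (α : MulAut F) w * w⁻¹ ∈ K) → α ∈ M

/-- Every subgroup of finite index of the group `B` of automorphisms of `F` that contains the inner
automorphisms lying in `B` contains all elements of `B` that act on `F / K` as an inner automorphism,
for some characteristic subgroup `K` of finite index of `F`. -/
def FullOut {F : Type} [Group F] (B : Subgroup (MulAut F)) : Prop :=
  ∀ M : Subgroup B, M.FiniteIndex →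
    (∀ (g : F) (h : MulAut.conj g ∈ B), (⟨MulAut.conj g, h⟩ : B) ∈ M) →
    ∃ K : Subgroup F, K.Characteristic ∧ K.FiniteIndex ∧
      ∀ α : B, (∃ g : F, ∀ w : F, (α : MulAut F) w * (g * w * g⁻¹)⁻¹ ∈ K) → α ∈ M

/-! ## the wreath product on cosets -/

/-- the permutational wreath product of `ZMod 3` and `P` on the cosets of `B` -/
@[ext]
structure Wq (P : Type) [Group P] (B : Subgroup P) where
  f : P ⧸ B → ZMod 3
  q : P

namespace Wq

variable {P : Type} [Group P] {B : Subgroup P}

instance : Mul (Wq P B) := ⟨fun x y => ⟨fun z => x.f z + y.f (x.q⁻¹ • z), x.q * y.q⟩⟩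
instance : One (Wq P B) := ⟨⟨0, 1⟩⟩
instance : Inv (Wq P B) := ⟨fun x => ⟨fun z => -x.f (x.q • z), x.q⁻¹⟩⟩

@[simp] theorem mul_f (x y : Wq P B) (z : P ⧸ B) : (x * y).f z = x.f z + y.f (x.q⁻¹ • z) := rfl
@[simp] theorem mul_q (x y : Wq P B) : (x * y).q = x.q * y.q := rfl
@[simp] theorem one_f (z : P ⧸ B) : (1 : Wq P B).f z = 0 := rfl
@[simp] theorem one_q : (1 : Wq P B).q = 1 := rfl
@[simp] theorem inv_f (x : Wq P B) (z : P ⧸ B) : (x⁻¹).f z = -x.f (x.q • z) := rfl
@[simp] theorem inv_q (x : Wq P B) : (x⁻¹).q = x.q⁻¹ := rfl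

instance : Group (Wq P B) where
  mul_assoc x y z := by
    ext
    · simp [add_assoc, mul_smul]
    · simp [mul_assoc]
  one_mul x := by ext <;> simp
  mul_one x := by ext <;> simp
  inv_mul_cancel x := by ext <;> simp

instance [Finite P] : Finite (Wq P B) := by
  apply Finite.of_injective (fun x : Wq P B => (x.f, x.q))
  intro x y h
  exact Wq.ext (congrArg Prod.fst h) (congrArg Prod.snd h)

/-- the projection -/
def pr (P : Type) [Group P] (B : Subgroup P) : Wq P B →* P where
  toFun x := x.q
  map_one' := rfl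
  map_mul' _ _ := rfl

/-- the elements over `B` with support in the trivial coset -/
def sup (P : Type) [Group P] (B : Subgroup P) : Subgroup (Wq P B) where
  carrier := {x | x.q ∈ B ∧ ∀ y, y ≠ ((1 : P) : P ⧸ B) → x.f y = 0}
  one_mem' := ⟨one_mem _, fun _ _ => rfl⟩
  mul_mem' := by
    rintro x y ⟨hx, hx'⟩ ⟨hy, hy'⟩
    refine ⟨mul_mem hx hy, fun z hz => ?_⟩
    rw [mul_f, hx' z hz, zero_add]
    apply hy'
    intro h
    apply hz
    rw [inv_smul_eq_iff] at h
    rw [h]
    change ((x.q * 1 : P) : P ⧸ B) = _
    rw [QuotientGroup.eq]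
    simpa using hx
  inv_mem' := by
    rintro x ⟨hx, hx'⟩
    refine ⟨inv_mem hx, fun z hz => ?_⟩
    rw [inv_f, hx', neg_zero]
    intro h
    apply hz
    rw [smul_eq_iff_eq_inv_smul] at h
    rw [h]
    change ((x.q⁻¹ * 1 : P) : P ⧸ B) = _
    rw [QuotientGroup.eq]
    simpa using hx

/-- elements which conjugate the marked element into the subgroup lie over `B` -/
theorem mal {a b g : Wq P B} (ha : a.f ((1 : P) : P ⧸ B) = 1) (haq : a.q ∈ B) (hb : b ∈ sup P B)
    (h : g * a * g⁻¹ = b) : g.q ∈ B := by
  have h1 : g * a = b * g := mul_inv_eq_iff_eq_mul.1 h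
  have h2 := congrArg (fun w : Wq P B => w.f ((g.q : P) : P ⧸ B)) h1
  have h3 := congrArg (fun w : Wq P B => w.q) h1
  simp only [mul_f, mul_q] at h2 h3
  have e1 : g.q⁻¹ • ((g.q : P) : P ⧸ B) = ((1 : P) : P ⧸ B) := by
    change ((g.q⁻¹ * g.q : P) : P ⧸ B) = _
    rw [inv_mul_cancel]
  have e2 : b.q⁻¹ • ((g.q : P) : P ⧸ B) = ((g.q : P) : P ⧸ B) := by
    change ((b.q⁻¹ * g.q : P) : P ⧸ B) = _
    have : b.q = g.q * a.q * g.q⁻¹ := by rw [eq_mul_inv_iff_mul_eq, h3]
    rw [this, QuotientGroup.eq]
    have e : (((g.q * a.q * g.q⁻¹)⁻¹ * g.q)⁻¹ * g.q) = a.q := by group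
    rw [e]
    exact haq
  rw [e1, e2, ha, add_comm] at h2
  have h4 : b.f ((g.q : P) : P ⧸ B) = 1 := (add_right_cancel h2).symm
  by_contra hne
  have h5 : ((g.q : P) : P ⧸ B) ≠ ((1 : P) : P ⧸ B) := by
    intro h6
    rw [QuotientGroup.eq] at h6
    apply hne
    simpa using h6
  rw [hb.2 _ h5] at h4
  exact absurd h4 (by decide)

end Wq

/-! ## free factors spanned by letters -/

section factor

variable {I X : Type} (e : I → X)

/-- the inclusion of the free factor spanned by the letters `e i` -/
def io : FreeGroup I →* FreeGroup X := FreeGroup.map e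

@[simp] theorem io_of (i : I) : io e (FreeGroup.of i) = FreeGroup.of (e i) := by
  simp [io]

open Classical in
/-- the retraction -/
noncomputable def rt : FreeGroup X →* FreeGroup I :=
  FreeGroup.lift (Function.extend e FreeGroup.of (fun _ => 1))

variable {e}

theorem rt_io (he : Function.Injective e) (w : FreeGroup I) : rt e (io e w) = w := by
  have : (rt e).comp (io e) = MonoidHom.id _ := by
    ext i
    simp [rt, he.extend_apply]
  exact DFunLike.congr_fun this w

theorem rt_of {x : X} (h : ∀ i, e i ≠ x) : rt e (FreeGroup.of x) = 1 := by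
  rw [rt, FreeGroup.lift_apply_of, Function.extend_apply' _ _ _ (by
    rintro ⟨i, hi⟩
    exact h i hi)]

theorem io_inj (he : Function.Injective e) : Function.Injective (io e) :=
  Function.LeftInverse.injective (rt_io he)

variable (e)

open Classical in
/-- extension of an endomorphism by the identity on the other letters -/
noncomputable def exf (a : FreeGroup I →* FreeGroup I) : FreeGroup X →* FreeGroup X :=
  FreeGroup.lift (Function.extend e (fun i => io e (a (FreeGroup.of i))) FreeGroup.of)

variable {e}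

theorem exf_io (he : Function.Injective e) (a : FreeGroup I →* FreeGroup I) (w : FreeGroup I) :
    exf e a (io e w) = io e (a w) := by
  have : (exf e a).comp (io e) = (io e).comp a := by
    ext i
    simp [exf, he.extend_apply]
  exact DFunLike.congr_fun this w

theorem exf_of (a : FreeGroup I →* FreeGroup I) {x : X} (h : ∀ i, e i ≠ x) :
    exf e a (FreeGroup.of x) = FreeGroup.of x := by
  rw [exf, FreeGroup.lift_apply_of, Function.extend_apply' _ _ _ (by
    rintro ⟨i, hi⟩
    exact h i hi)]

theorem hom_ext' {G : Type} [Group G] {f g : FreeGroup X →* G}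
    (h1 : ∀ w, f (io e w) = g (io e w))
    (h2 : ∀ x, (∀ i, e i ≠ x) → f (FreeGroup.of x) = g (FreeGroup.of x)) : f = g := by
  ext x
  by_cases hx : ∃ i, e i = x
  · obtain ⟨i, rfl⟩ := hx
    have := h1 (FreeGroup.of i)
    rwa [io_of] at this
  · exact h2 x (fun i hi => hx ⟨i, hi⟩)

/-- extension of an automorphism by the identity on the other letters -/
noncomputable def ex (he : Function.Injective e) : MulAut (FreeGroup I) →* MulAut (FreeGroup X) where
  toFun a := MonoidHom.toMulEquiv (exf e a.toMonoidHom) (exf e (a⁻¹ : MulAut _).toMonoidHom)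
    (hom_ext' (e := e) (fun w => by
      simp only [MonoidHom.comp_apply, exf_io he, MonoidHom.id_apply]
      congr 1
      exact MulAut.inv_apply_self _ a w) (fun x hx => by
      simp only [MonoidHom.comp_apply, exf_of _ hx, MonoidHom.id_apply]))
    (hom_ext' (e := e) (fun w => by
      simp only [MonoidHom.comp_apply, exf_io he, MonoidHom.id_apply]
      congr 1
      exact MulAut.apply_inv_self _ a w) (fun x hx => by
      simp only [MonoidHom.comp_apply, exf_of _ hx, MonoidHom.id_apply]))
  map_one' := by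
    apply MulEquiv.toMonoidHom_injective
    refine hom_ext' (e := e) (fun w => ?_) (fun x hx => ?_)
    · exact exf_io he _ w
    · exact exf_of _ hx
  map_mul' a b := by
    apply MulEquiv.toMonoidHom_injective
    refine hom_ext' (e := e) (fun w => ?_) (fun x hx => ?_)
    · change exf e _ (io e w) = exf e _ (exf e _ (io e w))
      rw [exf_io he, exf_io he, exf_io he]
      rfl
    · change exf e _ (FreeGroup.of x) = exf e _ (exf e _ (FreeGroup.of x))
      rw [exf_of _ hx, exf_of _ hx, exf_of _ hx]

theorem ex_io (he : Function.Injective e) (a : MulAut (FreeGroup I)) (w : FreeGroup I) :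
    ex he a (io e w) = io e (a w) := exf_io he _ w

theorem ex_of (he : Function.Injective e) (a : MulAut (FreeGroup I)) {x : X} (h : ∀ i, e i ≠ x) :
    ex he a (FreeGroup.of x) = FreeGroup.of x := exf_of _ h

/-! ## the detecting homomorphism -/

open Classical in
/-- the marked homomorphism to the wreath product -/
noncomputable def ch {P : Type} [Group P] (B : Subgroup P) (π : FreeGroup X →* P) (x0 : X) :
    FreeGroup X →* Wq P B :=
  FreeGroup.lift (fun x => ⟨fun y => if x = x0 ∧ y = ((1 : P) : P ⧸ B) then 1 else 0,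
    π (FreeGroup.of x)⟩)

theorem ch_q {P : Type} [Group P] (B : Subgroup P) (π : FreeGroup X →* P) (x0 : X)
    (w : FreeGroup X) : (ch B π x0 w).q = π w := by
  have : (Wq.pr P B).comp (ch B π x0) = π := by
    ext j
    simp [ch, Wq.pr]
  exact DFunLike.congr_fun this w

theorem ch_f {P : Type} [Group P] (B : Subgroup P) (π : FreeGroup X →* P) (x0 : X) :
    (ch B π x0 (FreeGroup.of x0)).f ((1 : P) : P ⧸ B) = 1 := by
  simp [ch]

theorem ch_sup {P : Type} [Group P] {B : Subgroup P} {π : FreeGroup X →* P} (x0 : X)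
    (hB : ∀ w, π (io e w) ∈ B) (w : FreeGroup I) : ch B π x0 (io e w) ∈ Wq.sup P B := by
  have h : ∀ i : I, ch B π x0 (io e (FreeGroup.of i)) ∈ Wq.sup P B := by
    intro i
    refine ⟨?_, fun y hy => ?_⟩
    · rw [ch_q]
      exact hB _
    · simp [ch, hy]
  refine FreeGroup.induction_on w ?_ (fun i => h i) (fun i _ => ?_) (fun x y hx hy => ?_)
  · rw [map_one, map_one]; exact one_mem _
  · change ch B π x0 (io e (FreeGroup.of i)⁻¹) ∈ _
    rw [map_inv, map_inv]; exact inv_mem (h i)
  · rw [map_mul, map_mul]; exact mul_mem hx hy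

/-- If `g` conjugates the letter `e i0` to an element of the factor, modulo the kernel of the marked
homomorphism, then `π g` is in `B`. -/
theorem mal {P : Type} [Group P] {B : Subgroup P} {π : FreeGroup X →* P} (i0 : I)
    (hB : ∀ w, π (io e w) ∈ B) {g : FreeGroup X} {w : FreeGroup I}
    (h : ch B π (e i0) (g * FreeGroup.of (e i0) * g⁻¹) = ch B π (e i0) (io e w)) : π g ∈ B := by
  have h1 := ch_sup (e := e) (e i0) hB w
  rw [← ch_q B π (e i0) g]
  refine Wq.mal (a := ch B π (e i0) (FreeGroup.of (e i0))) (ch_f _ _ _) ?_ h1 ?_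
  · rw [ch_q]
    have := hB (FreeGroup.of i0)
    rwa [io_of] at this
  · rw [← h, map_mul, map_mul, map_inv]

/-- elements which conjugate the letter into the factor lie in the factor -/
theorem mal_io (i0 : I) {g : FreeGroup X} {w : FreeGroup I}
    (h : g * FreeGroup.of (e i0) * g⁻¹ = io e w) : ∃ v, g = io e v := by
  have := mal (e := e) (B := (io e).range) (π := MonoidHom.id (FreeGroup X)) i0
    (fun w => ⟨w, rfl⟩) (g := g) (w := w) (by rw [h])
  obtain ⟨v, hv⟩ := this
  exact ⟨v, hv.symm⟩

/-! ## restriction to the factor -/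

section res

variable (he : Function.Injective e) (B : Subgroup (MulAut (FreeGroup X)))
  (A : Subgroup (MulAut (FreeGroup I)))
  (h : ∀ α ∈ B, ∃ a ∈ A, ∀ w, α (io e w) = io e (a w))

/-- restriction of automorphisms to the factor -/
noncomputable def res : B →* A where
  toFun α := ⟨(h α.1 α.2).choose, (h α.1 α.2).choose_spec.1⟩
  map_one' := by
    apply Subtype.ext
    apply MulEquiv.ext
    intro w
    apply io_inj he
    rw [← (h (1 : B).1 (1 : B).2).choose_spec.2]
    rfl
  map_mul' α β := by
    apply Subtype.ext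
    apply MulEquiv.ext
    intro w
    apply io_inj he
    rw [← (h (α * β : B).1 (α * β : B).2).choose_spec.2]
    change (α : MulAut (FreeGroup X)) ((β : MulAut (FreeGroup X)) (io e w)) = _
    rw [(h β.1 β.2).choose_spec.2, (h α.1 α.2).choose_spec.2]
    rfl

theorem res_spec (α : B) (w : FreeGroup I) : (α : MulAut (FreeGroup X)) (io e w) =
    io e ((res he B A h α : MulAut (FreeGroup I)) w) := (h α.1 α.2).choose_spec.2 w

theorem res_eq (α : B) (a : A)
    (ha : ∀ w, (α : MulAut (FreeGroup X)) (io e w) = io e ((a : MulAut (FreeGroup I)) w)) :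
    res he B A h α = a := by
  apply Subtype.ext
  apply MulEquiv.ext
  intro w
  apply io_inj he
  rw [← res_spec he B A h, ha]

end res

/-- a hom that kills a subgroup of the factor -/
theorem agree {G : Type} [Group G] (f : FreeGroup X →* G) (a : FreeGroup I) (b : FreeGroup I)
    (h : a * b⁻¹ ∈ KK (FreeGroup I) G) : f (io e a) = f (io e b) := by
  have := mem_KK.1 h (f.comp (io e))
  rw [map_mul, map_inv, mul_inv_eq_one] at this
  exact this

end factor

end Pool.Agent.Q23.CS
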