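import Pool.Agent.Q23.CS.Base

/-!
# Stabilizers of free splittings with one vertex: the group
-/

set_option autoImplicit false

namespace Pool.Agent.Q23.CS

open Pool.Agent.Q24.CG (KK mem_KK KK_char KK_fin fi_comap cp sh cp_zero cp_ne sh_apply sh_inv
  detect detect')

variable {I J : Type}

/-- The group of all automorphisms `α` of the free group on `I ⊕ J` which restrict to an element of
`A` on the free factor on `I` and map each letter `x j`, `j` in `J`, to an element of the form
`u * (x (σ j)) ^ (± 1) * v` with `u`, `v` in the free factor on `I`, where `σ` is a permutation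
of `J`. -/
def loops (J : Type) (A : Subgroup (MulAut (FreeGroup I))) :
    Subgroup (MulAut (FreeGroup (I ⊕ J))) where
  carrier := {α | (∃ a ∈ A, ∀ w : FreeGroup I,
      α (FreeGroup.map Sum.inl w) = FreeGroup.map Sum.inl (a w)) ∧
    ∃ σ : Equiv.Perm J, ∀ j : J, ∃ u v : FreeGroup I,
      α (FreeGroup.of (Sum.inr j)) =
        FreeGroup.map Sum.inl u * FreeGroup.of (Sum.inr (σ j)) * FreeGroup.map Sum.inl v ∨
      α (FreeGroup.of (Sum.inr j)) =
        FreeGroup.map Sum.inl u * (FreeGroup.of (Sum.inr (σ j)))⁻¹ * FreeGroup.map Sum.inl v}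
  one_mem' := ⟨⟨1, one_mem _, fun _ => rfl⟩, 1, fun j => ⟨1, 1, Or.inl (by simp)⟩⟩
  mul_mem' := by
    rintro α β ⟨⟨a, ha, ha'⟩, σ, hσ⟩ ⟨⟨b, hb, hb'⟩, τ, hτ⟩
    refine ⟨⟨a * b, mul_mem ha hb, fun w => ?_⟩, σ * τ, fun j => ?_⟩
    · rw [MulAut.mul_apply, hb', ha']
      rfl
    · obtain ⟨u, v, h1 | h1⟩ := hτ j
      · obtain ⟨u', v', h2 | h2⟩ := hσ (τ j)
        · refine ⟨a u * u', v' * a v, Or.inl ?_⟩
          rw [MulAut.mul_apply, h1, map_mul, map_mul, h2, ha', ha', map_mul, map_mul]
          simp only [mul_assoc, Equiv.Perm.mul_apply]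
        · refine ⟨a u * u', v' * a v, Or.inr ?_⟩
          rw [MulAut.mul_apply, h1, map_mul, map_mul, h2, ha', ha', map_mul, map_mul]
          simp only [mul_assoc, Equiv.Perm.mul_apply]
      · obtain ⟨u', v', h2 | h2⟩ := hσ (τ j)
        · refine ⟨a u * v'⁻¹, u'⁻¹ * a v, Or.inr ?_⟩
          rw [MulAut.mul_apply, h1, map_mul, map_mul, map_inv, h2, ha', ha', map_mul, map_mul,
            map_inv, map_inv]
          simp only [mul_assoc, Equiv.Perm.mul_apply, mul_inv_rev]
        · refine ⟨a u * v'⁻¹, u'⁻¹ * a v, Or.inl ?_⟩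
          rw [MulAut.mul_apply, h1, map_mul, map_mul, map_inv, h2, ha', ha', map_mul, map_mul,
            map_inv, map_inv]
          simp only [mul_assoc, Equiv.Perm.mul_apply, mul_inv_rev, inv_inv]
  inv_mem' := by
    rintro α ⟨⟨a, ha, ha'⟩, σ, hσ⟩
    have hi : ∀ w : FreeGroup I, α⁻¹ (FreeGroup.map Sum.inl w) = FreeGroup.map Sum.inl (a⁻¹ w) := by
      intro w
      have := ha' (a⁻¹ w)
      rw [MulAut.apply_inv_self] at this
      rw [← this, MulAut.inv_apply_self]
    refine ⟨⟨a⁻¹, inv_mem ha, hi⟩, σ⁻¹, fun j => ?_⟩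
    have hj : σ (σ⁻¹ j) = j := σ.apply_symm_apply j
    obtain ⟨u, v, h1 | h1⟩ := hσ (σ⁻¹ j)
    · refine ⟨a⁻¹ u⁻¹, a⁻¹ v⁻¹, Or.inl ?_⟩
      rw [hj] at h1
      have h2 : FreeGroup.of (Sum.inr j) = FreeGroup.map Sum.inl u⁻¹ *
          α (FreeGroup.of (Sum.inr (σ⁻¹ j))) * FreeGroup.map Sum.inl v⁻¹ := by
        rw [h1, map_inv, map_inv]
        group
      rw [h2, map_mul, map_mul, MulAut.inv_apply_self, hi, hi]
    · refine ⟨a⁻¹ v, a⁻¹ u, Or.inr ?_⟩
      rw [hj] at h1
      have h2 : FreeGroup.of (Sum.inr j) = FreeGroup.map Sum.inl v *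
          (α (FreeGroup.of (Sum.inr (σ⁻¹ j))))⁻¹ * FreeGroup.map Sum.inl u := by
        rw [h1]
        group
      rw [h2, map_mul, map_mul, map_inv, MulAut.inv_apply_self, hi, hi]

/-- the inclusion of the free factor on `I` -/
abbrev il (I J : Type) : FreeGroup I →* FreeGroup (I ⊕ J) := io Sum.inl

/-- the letters of `J` -/
abbrev lt {J : Type} (I : Type) (j : J) : FreeGroup (I ⊕ J) := FreeGroup.of (Sum.inr j)

theorem linj : Function.Injective (Sum.inl : I → I ⊕ J) := Sum.inl_injective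

theorem lne (j : J) (i : I) : (Sum.inl i : I ⊕ J) ≠ Sum.inr j := Sum.inl_ne_inr

theorem hom_ext_l {G : Type} [Group G] {f g : FreeGroup (I ⊕ J) →* G}
    (h1 : ∀ w, f (il I J w) = g (il I J w)) (h2 : ∀ j, f (lt I j) = g (lt I j)) : f = g := by
  refine hom_ext' (e := Sum.inl) h1 (fun x hx => ?_)
  cases x with
  | inl i => exact absurd rfl (hx i)
  | inr j => exact h2 j

/-! ## the twist group -/

/-- the endomorphism `x j ↦ (u j)⁻¹ * x j * v j` -/
def twf (u v : J → FreeGroup I) : FreeGroup (I ⊕ J) →* FreeGroup (I ⊕ J) :=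
  FreeGroup.lift (Sum.elim (fun i => FreeGroup.of (Sum.inl i))
    (fun j => (il I J (u j))⁻¹ * lt I j * il I J (v j)))

theorem twf_io (u v : J → FreeGroup I) (w : FreeGroup I) : twf u v (il I J w) = il I J w := by
  have : (twf u v).comp (il I J) = il I J := by
    ext i
    simp [twf]
  exact DFunLike.congr_fun this w

theorem twf_of (u v : J → FreeGroup I) (j : J) :
    twf u v (lt I j) = (il I J (u j))⁻¹ * lt I j * il I J (v j) := by
  simp [twf]

theorem twf_comp (u v u' v' : J → FreeGroup I) :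
    (twf u v).comp (twf u' v') = twf (u * u') (v * v') := by
  apply hom_ext_l
  · intro w
    rw [MonoidHom.comp_apply, twf_io, twf_io, twf_io]
  · intro j
    rw [MonoidHom.comp_apply, twf_of, twf_of, map_mul, map_mul, map_inv, twf_io, twf_io, twf_of,
      Pi.mul_apply, Pi.mul_apply, map_mul, map_mul]
    group

theorem twf_one : twf (1 : J → FreeGroup I) 1 = MonoidHom.id _ := by
  apply hom_ext_l
  · intro w
    rw [twf_io]
    rfl
  · intro j
    rw [twf_of]
    simp

/-- the twist group -/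
def tw : ((J → FreeGroup I) × (J → FreeGroup I)) →* MulAut (FreeGroup (I ⊕ J)) where
  toFun p := MonoidHom.toMulEquiv (twf p.1 p.2) (twf p.1⁻¹ p.2⁻¹)
    (by rw [twf_comp, inv_mul_cancel, inv_mul_cancel, twf_one])
    (by rw [twf_comp, mul_inv_cancel, mul_inv_cancel, twf_one])
  map_one' := by
    apply MulEquiv.toMonoidHom_injective
    exact twf_one
  map_mul' p q := by
    apply MulEquiv.toMonoidHom_injective
    exact (twf_comp p.1 p.2 q.1 q.2).symm

theorem tw_io (p : (J → FreeGroup I) × (J → FreeGroup I)) (w : FreeGroup I) :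
    tw p (il I J w) = il I J w := twf_io _ _ w

theorem tw_of (p : (J → FreeGroup I) × (J → FreeGroup I)) (j : J) :
    tw p (lt I j) = (il I J (p.1 j))⁻¹ * lt I j * il I J (p.2 j) := twf_of _ _ j

variable (A : Subgroup (MulAut (FreeGroup I)))

theorem tw_mem (p : (J → FreeGroup I) × (J → FreeGroup I)) : tw p ∈ loops J A := by
  refine ⟨⟨1, one_mem _, fun w => tw_io p w⟩, 1, fun j => ⟨(p.1 j)⁻¹, p.2 j, Or.inl ?_⟩⟩
  change tw p (lt I j) = il I J (p.1 j)⁻¹ * lt I j * il I J (p.2 j)
  rw [tw_of, map_inv]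

/-- the twist group in the stabilizer -/
def twA : ((J → FreeGroup I) × (J → FreeGroup I)) →* loops J A where
  toFun p := ⟨tw p, tw_mem A p⟩
  map_one' := Subtype.ext (map_one tw)
  map_mul' p q := Subtype.ext (map_mul tw p q)

theorem exl_mem {a : MulAut (FreeGroup I)} (ha : a ∈ A) : ex linj a ∈ loops J A := by
  refine ⟨⟨a, ha, fun w => ex_io linj a w⟩, 1, fun j => ⟨1, 1, Or.inl ?_⟩⟩
  change ex linj a (lt I j) = il I J 1 * lt I j * il I J 1
  rw [ex_of linj a (lne j), map_one, one_mul, mul_one]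

/-- extension by the identity -/
noncomputable def exA : A →* loops J A where
  toFun a := ⟨ex linj (a : MulAut (FreeGroup I)), exl_mem A a.2⟩
  map_one' := Subtype.ext (map_one (ex linj))
  map_mul' p q := Subtype.ext (map_mul (ex linj) _ _)

/-- restriction -/
noncomputable def rsA : loops J A →* A := res linj (loops J A) A (fun α hα => hα.1)

theorem rsA_spec (α : loops J A) (w : FreeGroup I) :
    (α : MulAut (FreeGroup (I ⊕ J))) (il I J w) =
      il I J ((rsA A α : MulAut (FreeGroup I)) w) := res_spec _ _ _ _ α w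

theorem rsA_eq (α : loops J A) (a : A)
    (ha : ∀ w, (α : MulAut (FreeGroup (I ⊕ J))) (il I J w) =
      il I J ((a : MulAut (FreeGroup I)) w)) : rsA A α = a := res_eq _ _ _ _ α a ha

/-! ## detection of twists -/

open Classical in
/-- the detecting homomorphism -/
noncomputable def th {P : Type} [Group P] (π : FreeGroup I →* P) (j0 : J) :
    FreeGroup (I ⊕ J) →* Equiv.Perm (P × ZMod 3) :=
  FreeGroup.lift (Sum.elim (fun i => cp P (π (FreeGroup.of i)))
    (fun j => if j = j0 then sh P else 1))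

section th

variable {P : Type} [Group P] (π : FreeGroup I →* P) (j0 : J)

theorem th_io (w : FreeGroup I) : th π j0 (il I J w) = cp P (π w) := by
  have : (th π j0).comp (il I J) = (cp P).comp π := by
    ext i : 1
    simp [th]
  exact DFunLike.congr_fun this w

theorem th_of : th π j0 (lt I j0) = sh P := by
  simp [th]

theorem th_ne {j : J} (h : j ≠ j0) : th π j0 (lt I j) = 1 := by
  simp [th, h]

theorem cp_snd (p : P) (y : P × ZMod 3) : (cp P p y).2 = y.2 := rfl

theorem th_key {k : J} {u v : FreeGroup I} {y : FreeGroup (I ⊕ J)}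
    (hy : y = lt I k ∨ y = (lt I k)⁻¹) (h : th π j0 (il I J u * y * il I J v) = sh P) :
    k = j0 ∧ y = lt I k ∧ π u = 1 ∧ π v = 1 := by
  rw [map_mul, map_mul, th_io, th_io] at h
  have hk : k = j0 := by
    by_contra hne
    have h1 : th π j0 y = 1 := by
      rcases hy with rfl | rfl
      · exact th_ne π j0 hne
      · rw [map_inv, th_ne π j0 hne, inv_one]
    rw [h1, mul_one, ← map_mul] at h
    have h2 := congrArg (fun e : Equiv.Perm (P × ZMod 3) => (e (1, 0)).2) h
    simp only [cp_snd, sh_apply] at h2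
    exact absurd h2 (by decide)
  subst hk
  rcases hy with rfl | rfl
  · rw [th_of] at h
    exact ⟨rfl, rfl, detect h⟩
  · rw [map_inv, th_of] at h
    exact (detect' h).elim

theorem th_val (u v : FreeGroup I) :
    (th (MonoidHom.id (FreeGroup I)) j0 (il I J u * lt I j0 * il I J v) (1, 2)).1 = u := by
  rw [map_mul, map_mul, th_io, th_io, th_of]
  simp only [Equiv.Perm.mul_apply, MonoidHom.id_apply]
  rw [cp_ne v 1 (by decide : (2 : ZMod 3) ≠ 0), sh_apply]
  have e : (2 : ZMod 3) + 1 = 0 := by decide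
  rw [e, cp_zero, mul_one]

end th

end Pool.Agent.Q23.CS
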