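import Pool.Agent.Q23.CS.Base

/-!
# Stabilizers of star-shaped free splittings
-/

set_option autoImplicit false

namespace Pool.Agent.Q23.CS

open Pool.Agent.Q24.CG (KK mem_KK KK_char KK_fin fi_comap)

variable {S : Type} {I : S → Type}

/-- The group of all automorphisms `α` of the free group on the disjoint union of the sets `I s` such
that, for every `s`, `α` maps the free factor on `I s` onto itself and restricts to an element of
`A s` on it. -/
def star (A : ∀ s, Subgroup (MulAut (FreeGroup (I s)))) :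
    Subgroup (MulAut (FreeGroup (Σ s, I s))) where
  carrier := {α | ∀ s, ∃ a ∈ A s, ∀ w : FreeGroup (I s),
    α (FreeGroup.map (Sigma.mk s) w) = FreeGroup.map (Sigma.mk s) (a w)}
  one_mem' := fun s => ⟨1, one_mem _, fun _ => rfl⟩
  mul_mem' := by
    intro α β hα hβ s
    obtain ⟨a, ha, ha'⟩ := hα s
    obtain ⟨b, hb, hb'⟩ := hβ s
    refine ⟨a * b, mul_mem ha hb, fun w => ?_⟩
    rw [MulAut.mul_apply, hb', ha']
    rfl
  inv_mem' := by
    intro α hα s
    obtain ⟨a, ha, ha'⟩ := hα s
    refine ⟨a⁻¹, inv_mem ha, fun w => ?_⟩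
    have := ha' (a⁻¹ w)
    rw [MulAut.apply_inv_self] at this
    rw [← this, MulAut.inv_apply_self]

theorem sinj (s : S) : Function.Injective (Sigma.mk s : I s → Σ s, I s) := sigma_mk_injective

theorem sne {s t : S} (h : t ≠ s) (i : I t) (j : I s) : (⟨s, j⟩ : Σ s, I s) ≠ ⟨t, i⟩ := by
  intro h1
  exact h (congrArg Sigma.fst h1).symm

/-- the endomorphism given by a family of endomorphisms -/
def allf (a : ∀ s, FreeGroup (I s) →* FreeGroup (I s)) :
    FreeGroup (Σ s, I s) →* FreeGroup (Σ s, I s) :=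
  FreeGroup.lift (fun x => io (Sigma.mk x.1) (a x.1 (FreeGroup.of x.2)))

theorem allf_io (a : ∀ s, FreeGroup (I s) →* FreeGroup (I s)) (s : S) (w : FreeGroup (I s)) :
    allf a (io (Sigma.mk s) w) = io (Sigma.mk s) (a s w) := by
  have : (allf a).comp (io (Sigma.mk s)) = (io (Sigma.mk s)).comp (a s) := by
    ext i
    simp [allf]
  exact DFunLike.congr_fun this w

theorem hom_ext_s {G : Type} [Group G] {f g : FreeGroup (Σ s, I s) →* G}
    (h : ∀ s w, f (io (Sigma.mk s) w) = g (io (Sigma.mk s) w)) : f = g := by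
  ext ⟨s, i⟩
  have := h s (FreeGroup.of i)
  rwa [io_of] at this

/-- the automorphism given by a family of automorphisms -/
def all : (∀ s, MulAut (FreeGroup (I s))) →* MulAut (FreeGroup (Σ s, I s)) where
  toFun a := MonoidHom.toMulEquiv (allf fun s => (a s).toMonoidHom)
    (allf fun s => ((a s)⁻¹ : MulAut _).toMonoidHom)
    (hom_ext_s (fun s w => by
      simp only [MonoidHom.comp_apply, allf_io, MonoidHom.id_apply]
      congr 1
      exact MulAut.inv_apply_self _ (a s) w))
    (hom_ext_s (fun s w => by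
      simp only [MonoidHom.comp_apply, allf_io, MonoidHom.id_apply]
      congr 1
      exact MulAut.apply_inv_self _ (a s) w))
  map_one' := by
    apply MulEquiv.toMonoidHom_injective
    exact hom_ext_s (fun s w => allf_io (fun s => (1 : MulAut (FreeGroup (I s))).toMonoidHom) s w)
  map_mul' a b := by
    apply MulEquiv.toMonoidHom_injective
    refine hom_ext_s (fun s w => ?_)
    change allf (fun s => (a s * b s : MulAut (FreeGroup (I s))).toMonoidHom) (io _ w) =
      allf (fun s => (a s).toMonoidHom) (allf (fun s => (b s).toMonoidHom) (io _ w))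
    rw [allf_io, allf_io, allf_io]
    rfl

theorem all_io (a : ∀ s, MulAut (FreeGroup (I s))) (s : S) (w : FreeGroup (I s)) :
    all a (io (Sigma.mk s) w) = io (Sigma.mk s) (a s w) :=
  allf_io (fun s => (a s).toMonoidHom) s w

variable (A : ∀ s, Subgroup (MulAut (FreeGroup (I s))))

/-- the group `star A` is the direct product of the groups `A s` -/
def allA : (∀ s, A s) →* star A where
  toFun a := ⟨all (fun s => (a s : MulAut (FreeGroup (I s)))), fun s =>
    ⟨a s, (a s).2, fun w => all_io _ s w⟩⟩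
  map_one' := by
    apply Subtype.ext
    change all (fun s => ((1 : A s) : MulAut (FreeGroup (I s)))) = 1
    rw [← map_one all]
    rfl
  map_mul' a b := by
    apply Subtype.ext
    change all (fun s => ((a s * b s : A s) : MulAut (FreeGroup (I s)))) = all _ * all _
    rw [← map_mul all]
    rfl

theorem star_12 [Finite S] [∀ s, Finite (I s)] (h : ∀ s, FullAut (A s)) : FullAut (star A) := by
  classical
  intro M hM
  have hN : ∀ s, ((M.comap (allA A)).comap (MonoidHom.mulSingle (fun s => A s) s)).FiniteIndex := by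
    intro s
    have := fi_comap (allA A) M
    exact fi_comap _ _
  have h' := fun s => h s _ (hN s)
  choose K hKc hKf hK using h'
  have hq : ∀ s, Finite (FreeGroup (I s) ⧸ K s) := fun s =>
    Subgroup.finite_quotient_of_finiteIndex
  refine ⟨⨅ s, KK (FreeGroup (Σ s, I s)) (FreeGroup (I s) ⧸ K s), ?_, ?_, ?_⟩
  · refine ⟨fun ϕ => ?_⟩
    rw [Subgroup.comap_iInf]
    congr 1
    funext i
    exact KK_char.fixed ϕ
  · exact Subgroup.finiteIndex_iInf (fun i => KK_fin)
  · intro α hα
    have h1 := α.2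
    choose a ha ha' using h1
    have h2 : ∀ s, ∀ w : FreeGroup (I s), a s w * w⁻¹ ∈ K s := by
      intro s w
      have h3 := hα (io (Sigma.mk s) w)
      rw [Subgroup.mem_iInf] at h3
      have h4 := mem_KK.1 (h3 s) ((QuotientGroup.mk' (K s)).comp (rt (Sigma.mk s)))
      have h5 : (α : MulAut (FreeGroup (Σ s, I s))) (io (Sigma.mk s) w) =
        io (Sigma.mk s) (a s w) := ha' s w
      rw [h5, map_mul, map_inv, MonoidHom.comp_apply, MonoidHom.comp_apply, rt_io (sinj s),
        rt_io (sinj s), ← map_inv, ← map_mul] at h4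
      exact (QuotientGroup.eq_one_iff _).1 h4
    have h3 : (fun s => (⟨a s, ha s⟩ : A s)) ∈ M.comap (allA A) := by
      apply Subgroup.pi_mem_of_mulSingle_mem
      intro s
      exact hK s ⟨a s, ha s⟩ (h2 s)
    have h4 : allA A (fun s => (⟨a s, ha s⟩ : A s)) = α := by
      apply Subtype.ext
      apply MulEquiv.toMonoidHom_injective
      refine hom_ext_s (fun s w => ?_)
      have h5 : (α : MulAut (FreeGroup (Σ s, I s))) (io (Sigma.mk s) w) =
        io (Sigma.mk s) (a s w) := ha' s w
      change all _ (io _ w) = (α : MulAut (FreeGroup (Σ s, I s))) (io _ w)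
      rw [all_io, h5]
    rw [← h4]
    exact h3

theorem star_23 [Finite S] [Nontrivial S] [∀ s, Finite (I s)] [∀ s, Nonempty (I s)]
    (h : FullAut (star A)) : FullOut (star A) := by
  intro M hM _
  obtain ⟨K0, hK0c, hK0f, hK0⟩ := h M hM
  let P0 := FreeGroup (Σ s, I s) ⧸ K0
  let π0 : FreeGroup (Σ s, I s) →* P0 := QuotientGroup.mk' K0
  have hP0 : Finite P0 := Subgroup.finite_quotient_of_finiteIndex
  let K1 := KK (FreeGroup (Σ s, I s)) P0
  have hK1f : K1.FiniteIndex := KK_fin
  have hK1c : K1.Characteristic := KK_char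
  have hK1n : K1.Normal := inferInstance
  let P1 := FreeGroup (Σ s, I s) ⧸ K1
  let π1 : FreeGroup (Σ s, I s) →* P1 := QuotientGroup.mk' K1
  have hP1 : Finite P1 := Subgroup.finite_quotient_of_finiteIndex
  let B : S → Subgroup P1 := fun s => (π1.comp (io (Sigma.mk s))).range
  have hB : ∀ s, ∀ w, π1 (io (Sigma.mk s) w) ∈ B s := fun s w => ⟨w, rfl⟩
  refine ⟨K1 ⊓ ⨅ s, KK (FreeGroup (Σ s, I s)) (Wq P1 (B s)), ?_, ?_, ?_⟩
  · refine ⟨fun ϕ => ?_⟩
    rw [Subgroup.comap_inf, Subgroup.comap_iInf, hK1c.fixed ϕ]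
    congr 2
    funext i
    exact KK_char.fixed ϕ
  · have : (⨅ s, KK (FreeGroup (Σ s, I s)) (Wq P1 (B s))).FiniteIndex :=
      Subgroup.finiteIndex_iInf (fun i => KK_fin)
    infer_instance
  · rintro α ⟨g, hg⟩
    have h1 : ∀ s, π1 g ∈ B s := by
      intro s
      obtain ⟨i0⟩ := (inferInstance : Nonempty (I s))
      obtain ⟨a, _, ha'⟩ := α.2 s
      have h2 := (hg (FreeGroup.of ⟨s, i0⟩)).2
      have h2 := Subgroup.mem_iInf.1 h2
      have h3 := mem_KK.1 (h2 s) (ch (B s) π1 ⟨s, i0⟩)
      rw [map_mul, map_inv, mul_inv_eq_one] at h3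
      refine mal (e := Sigma.mk s) i0 (hB s) (g := g) (w := a (FreeGroup.of i0)) ?_
      rw [← h3]
      congr 1
      have := ha' (FreeGroup.of i0)
      rw [FreeGroup.map.of] at this
      exact this
    obtain ⟨s, t, hst⟩ := exists_pair_ne S
    obtain ⟨u, hu⟩ := h1 s
    obtain ⟨v, hv⟩ := h1 t
    have h2 : (io (Sigma.mk s) u)⁻¹ * io (Sigma.mk t) v ∈ K1 := by
      rw [← QuotientGroup.eq]
      exact hu.trans hv.symm
    have h3 := mem_KK.1 h2 ((π0.comp (io (Sigma.mk s))).comp (rt (Sigma.mk s)))
    have h4 : rt (Sigma.mk s) (io (Sigma.mk t) v) = 1 := by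
      have : (rt (Sigma.mk s)).comp (io (Sigma.mk t)) = (1 : FreeGroup (I t) →* FreeGroup (I s)) := by
        ext i
        rw [MonoidHom.comp_apply, io_of]
        exact rt_of (fun j => sne hst.symm i j)
      exact DFunLike.congr_fun this v
    rw [MonoidHom.comp_apply, map_mul, map_inv, h4, rt_io (sinj s), mul_one, map_inv,
      inv_eq_one] at h3
    have h5 : π0 g = 1 := by
      have h6 : (io (Sigma.mk s) u)⁻¹ * g ∈ K1 := by
        rw [← QuotientGroup.eq]
        exact hu
      have h7 := mem_KK.1 h6 π0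
      rw [map_mul, map_inv] at h7
      have h8 : π0 (io (Sigma.mk s) u) = 1 := h3
      rwa [h8, inv_one, one_mul] at h7
    apply hK0
    intro w
    have h6 := mem_KK.1 (hg w).1 π0
    rw [← QuotientGroup.eq_one_iff]
    change π0 _ = 1
    rw [map_mul, map_inv, map_mul, map_mul, map_inv, h5, one_mul, inv_one, mul_one] at h6
    rw [map_mul, map_inv]
    exact h6

theorem star_31 [Nontrivial S] [∀ s, Nonempty (I s)] [∀ s, Finite (I s)]
    (h : FullOut (star A)) (s : S) : FullAut (A s) := by
  classical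
  intro N hN
  let R : star A →* A s := res (sinj s) (star A) (A s) (fun α hα => hα s)
  have hM : (N.comap R).FiniteIndex := fi_comap R N
  obtain ⟨K, hKc, hKf, hK⟩ := h (N.comap R) hM (by
    intro g hg
    obtain ⟨t, hts⟩ := exists_ne s
    have h1 : ∀ r : S, ∃ v, g = io (Sigma.mk r) v := by
      intro r
      obtain ⟨i0⟩ := (inferInstance : Nonempty (I r))
      obtain ⟨a, _, ha'⟩ := hg r
      refine mal_io (e := Sigma.mk r) i0 (g := g) (w := a (FreeGroup.of i0)) ?_
      have := ha' (FreeGroup.of i0)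
      rw [FreeGroup.map.of] at this
      exact this
    obtain ⟨u, hu⟩ := h1 s
    obtain ⟨v, hv⟩ := h1 t
    have h4 : rt (Sigma.mk s) (io (Sigma.mk t) v) = 1 := by
      have : (rt (Sigma.mk s)).comp (io (Sigma.mk t)) = (1 : FreeGroup (I t) →* FreeGroup (I s)) := by
        ext i
        rw [MonoidHom.comp_apply, io_of]
        exact rt_of (fun j => sne hts i j)
      exact DFunLike.congr_fun this v
    have h5 : u = 1 := by
      rw [← rt_io (sinj s) u, ← hu, hv, h4]
    have h6 : g = 1 := by rw [hu, h5, map_one]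
    have h7 : (⟨MulAut.conj g, hg⟩ : star A) = 1 := by
      apply Subtype.ext
      change MulAut.conj g = 1
      rw [h6, map_one]
    rw [h7]
    exact one_mem _)
  have hP : Finite (FreeGroup (Σ s, I s) ⧸ K) := by
    exact Subgroup.finiteIndex_iff_finite_quotient.mp hKf
  refine ⟨KK (FreeGroup (I s)) (FreeGroup (Σ s, I s) ⧸ K), KK_char, KK_fin, ?_⟩
  intro a ha
  have h1 : allA A (Pi.mulSingle s a) ∈ N.comap R := by
    apply hK
    refine ⟨1, fun w => ?_⟩
    rw [one_mul, inv_one, mul_one]
    have h2 : (QuotientGroup.mk' K).comp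
        ((allA A (Pi.mulSingle s a) : MulAut (FreeGroup (Σ s, I s))) :
          FreeGroup (Σ s, I s) →* FreeGroup (Σ s, I s)) = QuotientGroup.mk' K := by
      refine hom_ext_s (fun t v => ?_)
      change QuotientGroup.mk' K (all _ (io _ v)) = _
      rw [all_io]
      by_cases hts : t = s
      · subst hts
        rw [Pi.mulSingle_eq_same]
        exact agree _ _ _ (ha v)
      · rw [Pi.mulSingle_eq_of_ne hts]
        rfl
    rw [← QuotientGroup.eq_one_iff]
    change QuotientGroup.mk' K _ = 1
    rw [map_mul, map_inv, mul_inv_eq_one]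
    exact DFunLike.congr_fun h2 w
  have h2 : R (allA A (Pi.mulSingle s a)) = a := by
    apply res_eq
    intro w
    change all _ (io _ w) = _
    rw [all_io, Pi.mulSingle_eq_same]
  have h3 : R (allA A (Pi.mulSingle s a)) ∈ N := h1
  rwa [h2] at h3

theorem star_main [Finite S] [Nontrivial S] [∀ s, Finite (I s)] [∀ s, Nonempty (I s)] :
    List.TFAE [∀ s, FullAut (A s), FullAut (star A), FullOut (star A)] := by
  tfae_have 1 → 2 := star_12 A
  tfae_have 2 → 3 := star_23 A
  tfae_have 3 → 1 := star_31 A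
  tfae_finish

end Pool.Agent.Q23.CS
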