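import Pool.Agent.Q23.CS.LMain
import Pool.Agent.Q171.AS.Split

/-!
# Rank two vertex groups
-/

set_option autoImplicit false

namespace Pool.Agent.Q23.CS

open Pool.Agent.Q171.AS (flag flag_top flag_aut')

/-- the congruence subgroup property for automorphism groups of free groups of rank one and two -/
theorem full_two {m : ℕ} (hm : m = 1 ∨ m = 2) :
    FullAut (⊤ : Subgroup (MulAut (FreeGroup (Fin m)))) := by
  have h1 : FullAut (flag m) := fun M _ => flag_aut' (by omega) M
  rwa [flag_top (by omega)] at h1

theorem loops_two {m : ℕ} (hm : m = 1 ∨ m = 2) (J : Type) [Finite J] [Nonempty J] :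
    FullOut (loops J (⊤ : Subgroup (MulAut (FreeGroup (Fin m))))) := by
  have : Nonempty (Fin m) := ⟨⟨0, by omega⟩⟩
  exact ((loops_main (J := J) (⊤ : Subgroup (MulAut (FreeGroup (Fin m))))).2
    (fun g => Subgroup.mem_top _)).1 (full_two hm)

end Pool.Agent.Q23.CS
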